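import Pool.Agent.H642.CK.FN

set_option autoImplicit false

/-! Statements of the lemmas of the classification of the conjugation actions of the groups
`Homeo(K)`, `K` compact metrizable zero-dimensional. Each `S_X` is a task; proofs are in
the docstrings. Everything is over the library files of `Pool.Agent.H642.CK`
(`Io x` : isolated point, `Nb A y` : clopen set with the only limit point `y`,
`hm Z` : the sigma-algebra on `Z ≃ₜ Z` generated by the evaluations,
`Cj f g` : conjugacy, `Dn f` : the moved points of `f` are dense). -/

namespace Pool.Agent.H642.KK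

open Set TopologicalSpace
open Pool.Agent.H642.CK (Io Nb Om hm Cj Dn)
open Pool.Agent.W889.VC (Str Iso Faithful BP)

attribute [local instance] hm

/-- The countable-or-perfect dichotomy for `E` on the class `K`. -/
def Dichotomy {Y : Type} [MeasurableSpace Y] (E : Y → Y → Prop) (K : Y → Prop) : Prop :=
  ∀ B : Set Y, MeasurableSet B → (∀ y z, E y z → (y ∈ B ↔ z ∈ B)) → (∀ y ∈ B, K y) →
    (∃ f : ℕ → Y, ∀ y ∈ B, ∃ n, E (f n) y) ∨
    (∃ g : (ℕ → Bool) → Y, Measurable g ∧ (∀ c, g c ∈ B) ∧ ∀ c d, E (g c) (g d) → c = d)

/-- all points are limits of other limit points -/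
def L2 (Z : Type) [TopologicalSpace Z] : Set Z :=
  {x | ∀ U : Set Z, IsOpen U → x ∈ U → ∃ y ∈ U, y ≠ x ∧ ¬ Io y}

/-- isolated points dense, the set of the limit points nonempty and without isolated points -/
structure NT (Z : Type) [TopologicalSpace Z] : Prop where
  dense : ∀ U : Set Z, IsOpen U → U.Nonempty → ∃ x ∈ U, Io x
  perf : ∀ x : Z, ¬ Io x → x ∈ L2 Z
  ne : ∃ x : Z, ¬ Io x

/-- `L2 Z` (the second derived set) is nonempty and has no isolated points, and each point of it
is a limit of points of rank one -/
structure NT2 (Z : Type) [TopologicalSpace Z] : Prop where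
  r1 : ∀ x ∈ L2 Z, ∀ U : Set Z, IsOpen U → x ∈ U → ∃ y ∈ U, ¬ Io y ∧ y ∉ L2 Z
  perf : ∀ x ∈ L2 Z, ∀ U : Set Z, IsOpen U → x ∈ U → ∃ y ∈ U, y ≠ x ∧ y ∈ L2 Z
  ne : (L2 Z).Nonempty

/-- stable spaces: `L2` is nonempty without isolated points, and each clopen set which meets `L2` is
homeomorphic to the whole space -/
structure Stb (Z : Type) [TopologicalSpace Z] : Prop where
  ne : (L2 Z).Nonempty
  perf : ∀ x ∈ L2 Z, ∀ U : Set Z, IsOpen U → x ∈ U → ∃ y ∈ U, y ≠ x ∧ y ∈ L2 Z
  iso : ∀ A : Set Z, IsClopen A → (A ∩ L2 Z).Nonempty → Nonempty (A ≃ₜ Z)

/-- **VT: Vaught's criterion**, the back-and-forth criterion for a homeomorphism of two compact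
metrizable zero-dimensional spaces.

Proof. Enumerate the clopen sets of `X` as `A 0, A 1, ...` and those of `Y` as `B 0, B 1, ...` (there
are countably many; `Clopens X` is countable for a compact second countable space). By
recursion on words `s : List Bool` choose clopen `E s ⊆ X`, `F s ⊆ Y` with `R (E s) (F s)`: `E [] =
univ`, `F [] = univ`; at even length `2 n`, `E (true::s) = E s ∩ A n`, `E (false::s) = E s \ A n` and
`F (b::s)` by the forth hypothesis; at odd length `2 n + 1` split `F s` by `B n` and use the back
hypothesis. Each `x : X` has a unique branch `b : ℕ → Bool` with `x ∈ E (b|n)` for all `n`; the map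
`u : X → (ℕ → Bool)` is continuous and injective (two points are separated by some `A n`), so is
the analogous `v : Y → (ℕ → Bool)`. A branch is in the range of `u` iff all the sets `E (b|n)` are
nonempty (compactness), iff all the sets `F (b|n)` are nonempty, iff it is in the range of `v`. A
continuous injection of a compact space in a Hausdorff space is a homeomorphism onto its range. -/
def S_VT : Prop := ∀ (X Y : Type) [TopologicalSpace X] [CompactSpace X] [T2Space X]
  [SecondCountableTopology X] [TotallyDisconnectedSpace X] [TopologicalSpace Y] [CompactSpace Y]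
  [T2Space Y] [SecondCountableTopology Y] [TotallyDisconnectedSpace Y]
  (R : Set X → Set Y → Prop), R univ univ →
  (∀ E F, IsClopen E → IsClopen F → R E F → (E = ∅ ↔ F = ∅)) →
  (∀ E F A, IsClopen E → IsClopen F → IsClopen A → A ⊆ E → R E F →
    ∃ B, IsClopen B ∧ B ⊆ F ∧ R A B ∧ R (E \ A) (F \ B)) →
  (∀ E F B, IsClopen E → IsClopen F → IsClopen B → B ⊆ F → R E F →
    ∃ A, IsClopen A ∧ A ⊆ E ∧ R A B ∧ R (E \ A) (F \ B)) →
  Nonempty (X ≃ₜ Y)

/-- **NT**: uniqueness of the compact metrizable zero-dimensional space in which the isolated
points are dense and the limit points form a Cantor set (Pelczynski). Prove `S_VT → S_NT`.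

Proof. `R E F := (E.Finite ∧ F.Finite ∧ E.ncard = F.ncard) ∨ (E.Infinite ∧ F.Infinite)`. A clopen set
is finite iff it contains no limit point (`Pool.Agent.H642.CK.fin_io`; conversely each point of
a finite clopen set is isolated). `univ` is infinite in both spaces. Splitting: let `A ⊆ E` be
clopen. If `E`, `F` are finite choose any `B ⊆ F` of the right size (subsets of `F` are clopen,
`Pool.Agent.H642.CK.clopen_fin`). If `E`, `F` are infinite and `A`, `E \ A` are infinite: `F` contains a
limit point, hence by `perf` two of them; separate them by a clopen set. If `A` is finite: `F`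
contains infinitely many isolated points (`dense`, applied to `F` minus a finite set of isolated
points, which is open and nonempty), choose `A.ncard` of them. If `E \ A` is finite: the same with
`B := F \ (finite set)`. The back condition follows by symmetry. -/
def S_NT : Prop := ∀ (X Y : Type) [TopologicalSpace X] [CompactSpace X] [T2Space X]
  [SecondCountableTopology X] [TotallyDisconnectedSpace X] [TopologicalSpace Y] [CompactSpace Y]
  [T2Space Y] [SecondCountableTopology Y] [TotallyDisconnectedSpace Y],
  NT X → NT Y → Nonempty (X ≃ₜ Y)

/-- **N2**: uniqueness of the spaces of type `NT2`. Prove `S_VT → S_N2`.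

Proof. Let `M E := E ∩ {x | ¬ Io x}` and take `R E F :=
((E ∩ L2).Nonempty ∧ (F ∩ L2).Nonempty) ∨ (E ∩ L2 = ∅ ∧ F ∩ L2 = ∅ ∧ (M E).ncard = (M F).ncard ∧
(E.Finite ↔ F.Finite) ∧ (E.Finite → E.ncard = F.ncard))`.
Facts: a limit point `y ∉ L2` has a clopen neighbourhood `A` with `Nb A y` (only limit point `y`), and
each such `A` is infinite with infinitely many isolated points; a clopen `E` with `E ∩ L2 = ∅` has
finitely many limit points (otherwise, by compactness, they accumulate at a point of `E ∩ L2`);
a clopen set is finite iff it has no limit points; a clopen set which meets `L2` contains infinitely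
many points of rank one (limit points not in `L2`), and infinitely many isolated points.
Splitting `A ⊆ E` (forth; back is symmetric). If `E ∩ L2 = ∅`: `A` has `m1`, `E \ A` has `m2` limit
points, `m1 + m2 = m` is the number of limit points of `F`; if `m1, m2 > 0` choose `B ⊆ F` clopen which
contains exactly `m1` of the limit points of `F`; if `m1 = 0`, `A` is finite, choose `A.ncard`
isolated points of `F`; if `m2 = 0` take the complement of such a set. If `E` meets `L2`: if both
`A`, `E \ A` meet `L2` split `F` between two points of `L2` (`perf`); if `A ∩ L2 = ∅` (then `E \ A` meets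
`L2`) choose `B ⊆ F` with `R A B` as a union of small clopen neighbourhoods of finitely many points
of rank one, or as a finite set of isolated points; if `(E \ A) ∩ L2 = ∅` take the complement. -/
def S_N2 : Prop := ∀ (X Y : Type) [TopologicalSpace X] [CompactSpace X] [T2Space X]
  [SecondCountableTopology X] [TotallyDisconnectedSpace X] [TopologicalSpace Y] [CompactSpace Y]
  [T2Space Y] [SecondCountableTopology Y] [TotallyDisconnectedSpace Y],
  NT2 X → NT2 Y → Nonempty (X ≃ₜ Y)

/-- **TRI**: a compact metrizable zero-dimensional space with infinitely many limit points has a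
clopen subspace of one of four types.

Proof. `L2 K ≠ ∅` by compactness (the set of the limit points is infinite). (a) If some
`p ∈ L2 K` has an open neighbourhood which contains no other point of `L2 K`, let `U` be a clopen
neighbourhood of `p` with `U ∩ L2 K = {p}`. A limit point `x ≠ p` of `U` is not in `L2 K`, so there is a
clopen `A ⊆ U` with `Nb A x`; `U` has infinitely many limit points because `p ∈ L2 K`. `U` is
countable: the isolated points of a second countable space are countable, and the limit points
`x ≠ p` of `U` are countable since `x ↦ A_x` is injective into the clopen sets of `K`, of which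
there are countably many. All this has to be restated for the subspace `U` (`Io`, `Nb`, `Om` in the
subtype; for open `U` a point is isolated in `U` iff it is isolated in `K`).
(b) Otherwise each point of `L2 K` is a limit of points of `L2 K`. (b1) If some open neighbourhood of
some `x ∈ L2 K` contains no isolated point of `K` and no point of rank one, take a clopen `U`
inside it: nonempty, no isolated points. (b2) If some open neighbourhood `V` of some `x ∈ L2 K`
contains no points of rank one (limit points not in `L2 K`) and (b1) fails, let `U ⊆ V` be clopen with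
`x ∈ U`: all limit points of `U` are in `L2`, and the isolated points are dense in `U` (a
nonempty open `W ⊆ U` contains an isolated point, or a limit point, which is in `L2 K`, so that `W`
contains an isolated point because (b1) fails and there are no points of rank one): `NT U`.
(b3) Otherwise `U = univ` (or any clopen set) is of type `NT2`. -/
def S_TRI : Prop := ∀ (K : Type) [TopologicalSpace K] [CompactSpace K] [T2Space K]
  [SecondCountableTopology K] [TotallyDisconnectedSpace K], {x : K | ¬ Io x}.Infinite →
  ∃ U : Set K, IsClopen U ∧ ((Countable U ∧ ∃ p : U, Om p) ∨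
    (U.Nonempty ∧ ∀ x : U, ¬ Io x) ∨ NT U ∨ NT2 U)

/-- **STB**: spaces of the last three types are stable. Prove `S_NT → S_N2 → S_STB`.

Proof. For a space without isolated points `L2 Z = univ`, each nonempty clopen subset is a compact
metrizable zero-dimensional space without isolated points, and two such nonempty spaces are
homeomorphic (the Cantor set; the library has this in `Pool.Graph.R_seed8.H812R3.CantorChar`). If
`NT Z` and `A` is clopen and meets `L2 Z` then `NT A` (an isolated point of `A` is isolated in `Z`
since `A` is open, etc.), so `A ≃ₜ Z` by `S_NT`. The same for `NT2`. -/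
def S_STB : Prop := ∀ (Z : Type) [TopologicalSpace Z] [CompactSpace Z] [T2Space Z]
  [SecondCountableTopology Z] [TotallyDisconnectedSpace Z],
  ((Nonempty Z ∧ ∀ x : Z, ¬ Io x) ∨ NT Z ∨ NT2 Z) → Stb Z

/-- **AMB**: faithful completeness passes from a clopen subspace to the whole space.

Proof. Let `a, B` be given and let `B0 ⊆ Homeo U`, `F0` be as in `Faithful Cj_U Dn`. For clopen
`A ⊆ K` (countably many) for which some homeomorphism of `K` maps `A` onto `U` choose one, `α A`
(for instance as a map `α A : K ≃ₜ K` with `α A '' A = U`). Let
`S A := {f : K ≃ₜ K | (∀ x ∉ A, f x = x) ∧ ∀ C, IsClopen C → C ⊆ A → C.Nonempty → ∃ x ∈ C, f x ≠ x}`.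
For `f ∈ S A`, `f` maps `A` onto `A`; the sets `S A` are pairwise disjoint; they are measurable, since
it is enough to test points in a countable dense subset (`{x | f x ≠ x}` is open, `{x | f x = x}`
closed). For `f ∈ S A` let `ρ A f : U ≃ₜ U` be the restriction of `α A ∘ f ∘ (α A)⁻¹` to `U`; for
`f ∉ S A` let `ρ A f = refl`; `ρ A` is measurable (`hm`). Put `B' := {f | ∃ A, (∃ α) ∧ f ∈ S A ∧
ρ A f ∈ B0}`, `F f := F0 (ρ A f)` if `f ∈ S A` for an admissible `A`, and a constant otherwise.
Invariance: if `h f = g h` and `f ∈ S A` then `g ∈ S (h '' A)`, `h '' A` is admissible and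
`ρ (h''A) g` is conjugate to `ρ A f` by the restriction of `α (h''A) ∘ h ∘ (α A)⁻¹` to `U`.
Conversely, if `f ∈ S A`, `g ∈ S A'` and `ρ A f`, `ρ A' g` are conjugate by `k : U ≃ₜ U`, extend `k` by
the identity to `k' : K ≃ₜ K`; then `(α A')⁻¹ k' (α A)` conjugates `f` to `g`. Finally each
`y ∈ B0` satisfies `Dn y`; its extension `y'` by the identity is in `S U`, and `ρ U y'` is conjugate
to `y`, so it is in `B0` and has an isomorphic code. -/
def S_AMB : Prop := ∀ (K : Type) [TopologicalSpace K] [CompactSpace K] [T2Space K]
  [SecondCountableTopology K] [TotallyDisconnectedSpace K] (U : Set K), IsClopen U → U.Nonempty →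
  Faithful (Cj (Z := U)) Dn → Faithful (Cj (Z := K)) (fun _ => True)

/-- isomorphism of two coloured permutations -/
def CIso {I Γ : Type} (f g : Equiv.Perm I) (c d : I → Γ) : Prop :=
  ∃ h : Equiv.Perm I, (∀ x, h (f x) = g (h x)) ∧ ∀ x, d (h x) = c x

/-- **CP**: isomorphism of coloured permutations of a countable set is a Borel relation.

Proof. For `z w : I` let `T z w y := ∀ k : ℤ, c ((F y ^ k) z) = d ((G y ^ k) w) ∧
((F y ^ k) z = z ↔ (G y ^ k) w = w)` (the pointed orbits are isomorphic), similarly with `(F, c)` and
`(F, c)`. Two orbits are isomorphic iff they contain points with `T`. Claim: `CIso (F y) (G y) c d` iff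
for each `z : I` and each `n`: (there are `n` points in pairwise different orbits of `F y` whose pointed
orbits are isomorphic to that of `z`) iff (the same for `G y`), and symmetrically for each
point `w` of `(I, G y, d)`. (Only if: clear. If: the orbits of `F y` are divided into types; so
are those of `G y`; for each type the numbers of orbits, finite or countably infinite, agree, so there
is a bijection of the orbits which preserves types; choose pointed isomorphisms.) The
right-hand side is Borel: `(F y ^ k) z = w` is a measurable predicate by induction on `|k|`, and there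
are only countable quantifiers (use the lemmas `BP.all`, `BP.ex`, ... of
`Pool.Graph.R_seed8.W889.VC.Transfer`). `BP p` means `MeasurableSet {y | p y}`. -/
def S_CP : Prop := ∀ (I Γ Y : Type) [Countable I] [MeasurableSpace Y] (F G : Y → Equiv.Perm I)
  (c d : I → Γ), (∀ i j, BP (fun y => F y i = j)) → (∀ i j, BP (fun y => G y i = j)) →
  BP (fun y => CIso (F y) (G y) c d)

/-- **FIN**: the dichotomy for spaces with finitely many limit points. Prove `S_CP → S_FIN`.

Proof. If `K` is finite, `K ≃ₜ K` is finite and the first alternative holds. Let `K` be infinite;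
`L := {x | ¬ Io x}` is finite, nonempty, `K` is countable (isolated points of a second countable space).
Let `Col := {c : K → K | (∀ x, c x ∈ L) ∧ (∀ y ∈ L, c y = y) ∧ ∀ y, IsClopen (c ⁻¹' {y})}`; it is
countable (finite partitions into clopen sets), nonempty; fix `c0 ∈ Col`. Claim: `Cj f g` iff there are
`d ∈ Col` and a permutation `σ` of `K` which moves only points of `L` (finitely many) with
`CIso f g (fun x => (σ (c0 x), Io x)) (fun x => (d x, Io x))`. (Only if: for a homeomorphism `h`
with `h f = g h` take `d := h ∘ c0 ∘ h⁻¹` and `σ := h` on `L`. If: let `h` be the permutation; `h`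
maps `L` onto `L`; for `y ∈ L`, `h y ∈ L` and `h y = d (h y) = σ (c0 y) = σ y`, so
`d ∘ h = h ∘ c0`; `h` is continuous at `y ∈ L`: let `V` be a clopen neighbourhood of `w = h y`;
`d ⁻¹' {w} \ V` is a compact set of isolated points, so it is finite; its preimage under `h` is a
finite set of isolated points and `h ⁻¹' (d ⁻¹' {w}) = c0 ⁻¹' {y}` is a neighbourhood of `y`.)
Hence by `S_CP` conjugacy is Borel. Now let `X := ℕ → ℕ` be identified with `K → K` by a bijection
`K ≃ ℕ` (Polish), `H ⊆ X` the set of those maps which are homeomorphisms of `K` (Borel: bijections such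
that the preimage of each of the countably many clopen sets is one of the countably many clopen
sets), `E' x y := x = y ∨ (x, y ∈ H and they are conjugate)`, a Borel equivalence
relation. Apply Silver's theorem `Pool.Agent.H579R3.SV.silver` (file
`Pool/Graph/R_seed8/H579R3/SB.lean`) to the Borel set of `X` that corresponds to `B`; the
identification of `H` with `K ≃ₜ K` is measurable in both directions for `hm K` (each subset of `K` is
Borel because `K` is countable). -/
def S_FIN : Prop := ∀ (K : Type) [TopologicalSpace K] [CompactSpace K] [T2Space K]
  [SecondCountableTopology K] [TotallyDisconnectedSpace K], {x : K | ¬ Io x}.Finite →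
  Dichotomy (Cj (Z := K)) (fun _ => True)

/-- **CONV**: the dichotomy for isomorphism of countable structures implies the one for
conjugation in `Homeo(K)`.

Proof. `Clopens K` is countable and infinite; let `e : ℕ ≃ {U : Set K // IsClopen U}`. Let `a = fun _ => 2`
and `N0 : Str a`: relation `0` is `e (v 0) ⊆ e (v 1)`, all the other relations are false. For
`f : K ≃ₜ K` let `M f : Str a`: relation `0` as in `N0`, relation `1` is `f '' e (v 0) = e (v 1)`, the others
false. `M f` and `M g` are isomorphic iff `f`, `g` are conjugate (an automorphism of the Boolean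
algebra of the clopen sets is induced by a homeomorphism, Stone duality: the ultrafilter of the
clopen neighbourhoods of `x` is mapped to the one of a unique point).
By the library theorem `Pool.Agent.Q216.TW.selector N0`
(`Pool/Graph/R_pool_sql_team_seeded_3997aac3/Q216/TW/Sel.lean`) there is a measurable `ψ : Str a → (ℕ → ℕ)`
such that for `z` isomorphic to `N0`, `ψ z` codes a permutation `s` which moves `N0` to `z`. For a
structure `z` let `red z` be `z` with the relations `i ≥ 1` replaced by false; if `Iso N0 (red z)` move `z`
back by the permutation coded by `ψ (red z)`: the result `z'` has `red z' = N0`. Call `z` good if moreover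
relation `1` of `z'` is (on indices) the graph of an automorphism of the Boolean algebra and the
relations `i ≥ 2` are false: a Borel condition. Then let `Φ z : K ≃ₜ K` be the homeomorphism with
`Φ z '' e m = e n ↔ z' 1 ![m, n]`. `Φ` is measurable on the good `z` for `hm K`: for clopen `V` and `x : K`,
`Φ z x ∈ V` iff there is a clopen `U ∋ x` with `Φ z '' U = V`. `M (Φ z)` is isomorphic to `z`, and
`Φ (M f)` is conjugate to `f`. Given an invariant measurable `B ⊆ (K ≃ₜ K)` let
`D := {z | z good ∧ Φ z ∈ B}`: measurable and invariant under isomorphism. Apply the dichotomy to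
`D` and transfer it back with `Φ`. -/
def S_CONV : Prop := ∀ (K : Type) [TopologicalSpace K] [CompactSpace K] [T2Space K]
  [SecondCountableTopology K] [TotallyDisconnectedSpace K] [Infinite K],
  (∀ a : ℕ → ℕ, Dichotomy (Iso (a := a)) (fun _ => True)) →
  Dichotomy (Cj (Z := K)) (fun _ => True)

/-- **OM**: proved in `Pool.Agent.H642.CK.FN` (`faithful_om`). -/
def S_OM : Prop := ∀ (Z : Type) [TopologicalSpace Z] [CompactSpace Z] [T2Space Z]
  [SecondCountableTopology Z] [TotallyDisconnectedSpace Z] [Countable Z] (p : Z), Om p →
  Faithful (Cj (Z := Z)) Dn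

/-- **STF**: stable spaces (in progress, helper642). -/
def S_STF : Prop := ∀ (Z : Type) [TopologicalSpace Z] [CompactSpace Z] [T2Space Z]
  [SecondCountableTopology Z] [TotallyDisconnectedSpace Z], Stb Z →
  Faithful (Cj (Z := Z)) Dn

end Pool.Agent.H642.KK
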