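import Pool.Agent.H642.CQ.FN
import Pool.Agent.H650.KK.VT
import Pool.Agent.H571.KK.NT
import Pool.Agent.H921.KK.N2
import Pool.Agent.H115.KK.TRI
import Pool.Agent.H105.KK.Amb
import Pool.Agent.H213.KK.CP
import Pool.Agent.H84.KK.F1
import Pool.Agent.H280.KK.F2
import Pool.Agent.H694.KK.ST
import Pool.Agent.H668.KK.CONV

set_option autoImplicit false

/-! Assembly: the conjugation action of `Homeo(K)`, `K` compact metrizable zero-dimensional. -/

namespace Pool.Agent.H642.KK

open Set TopologicalSpace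
open Pool.Agent.H642.CK (Io Nb Om hm Cj Dn)
open Pool.Agent.W889.VC (Str Iso Faithful BP)

attribute [local instance] hm

theorem s_vt : S_VT := Pool.Agent.H650.KK.VT.t_VT

theorem s_nt : S_NT := Pool.Agent.H571.KK.t_NT s_vt

theorem s_n2 : S_N2 := Pool.Agent.H921.KK.t_N2 s_vt

theorem s_fin : S_FIN := Pool.Agent.H280.KK.t_F2 Pool.Agent.H84.KK.t_F1 Pool.Agent.H213.KK.t_CP

theorem s_conv : S_CONV := Pool.Agent.H668.KK.t_CONV2 Pool.Agent.H694.KK.t_ST

/-- infinitely many limit points: faithful completeness -/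
theorem s_inf (K : Type) [TopologicalSpace K] [CompactSpace K] [T2Space K]
    [SecondCountableTopology K] [TotallyDisconnectedSpace K] (h : {x : K | ¬ Io x}.Infinite) :
    Faithful (Cj (Z := K)) (fun _ => True) := by
  obtain ⟨U, hU, h1⟩ := Pool.Agent.H115.KK.t_TRI K h
  have hc : CompactSpace U := isCompact_iff_compactSpace.1 hU.isClosed.isCompact
  have key : ∀ hT : Pool.Agent.H642.CQ.Tp U, Faithful (Cj (Z := K)) (fun _ => True) := by
    intro hT
    have hne := hT.nonempty
    exact Pool.Agent.H105.KK.AMB.t_AMB K U hU (Set.nonempty_coe_sort.1 hne)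
      (Pool.Agent.H642.CQ.faithful_tp s_nt s_n2 hT)
  rcases h1 with ⟨h2, p, h3⟩ | ⟨h2, h3⟩ | h2 | h2
  · have : Countable U := h2
    exact Pool.Agent.H105.KK.AMB.t_AMB K U hU ⟨p.1, p.2⟩ (Pool.Agent.H642.CK.faithful_om h3)
  · exact key (Or.inl ⟨h2.to_subtype, h3⟩)
  · exact key (Or.inr (Or.inl h2))
  · exact key (Or.inr (Or.inr h2))

end Pool.Agent.H642.KK
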