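import Pool.Agent.H642.KK.Stm

set_option autoImplicit false

/-! More statements (splitting `S_FIN` and `S_CONV`). -/

namespace Pool.Agent.H642.KK

open Set TopologicalSpace
open Pool.Agent.H642.CK (Io Nb Om hm Cj Dn)
open Pool.Agent.W889.VC (Str Iso Faithful BP)

attribute [local instance] hm

/-- the retractions on the limit points with clopen fibres -/
def Col (K : Type) [TopologicalSpace K] : Set (K → K) :=
  {c | (∀ x, ¬ Io (c x)) ∧ (∀ y, ¬ Io y → c y = y) ∧ ∀ y, IsClopen (c ⁻¹' {y})}

/-- **F1**: see the docstring of `S_FIN` (the sets `Col` and the claim). Here `K` is a compact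
metrizable zero-dimensional space with finitely many limit points. (1) `K` is countable, (2) `Col K` is
countable, (3) `Col K` is nonempty if `K` is infinite, (4) the criterion for conjugacy. -/
def S_F1 : Prop := ∀ (K : Type) [TopologicalSpace K] [CompactSpace K] [T2Space K]
  [SecondCountableTopology K] [TotallyDisconnectedSpace K], {x : K | ¬ Io x}.Finite →
  Countable K ∧ (Col K).Countable ∧ (Infinite K → (Col K).Nonempty) ∧
  ∀ c0 ∈ Col K, ∀ f g : K ≃ₜ K, Cj f g ↔ ∃ d ∈ Col K, ∃ σ : Equiv.Perm K,
    (∀ x, Io x → σ x = x) ∧
    CIso f.toEquiv g.toEquiv (fun x => (σ (c0 x), Io x)) (fun x => (d x, Io x))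

/-- **F2**: the assembly of the finite case, see the docstring of `S_FIN` (after the claim). -/
def S_F2 : Prop := S_F1 → S_CP → S_FIN

/-- **ST** (Stone duality): an automorphism of the Boolean algebra of the clopen sets of a compact
zero-dimensional space is induced by a homeomorphism.

Proof. For `x : K` the sets `τ U`, `x ∈ U`, are nonempty (`τ ∅ = ∅` since `∅` is the least clopen set)
and closed under finite intersections (`τ` is an order automorphism, so it preserves infima:
`τ (U ∩ V) = τ U ∩ τ V`), hence have a common point by compactness; it is unique since `τ U` and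
`τ Uᶜ` are disjoint and the clopen sets separate points. Call it `h x`. Then `x ∈ U → h x ∈ τ U`,
and `x ∉ U → h x ∉ τ U`. So `h` is continuous (preimage of the clopen set `τ U` is `U`, and `τ` is
onto), and the same for `τ.symm` gives the inverse. -/
def S_ST : Prop := ∀ (K : Type) [TopologicalSpace K] [CompactSpace K] [T2Space K]
  [TotallyDisconnectedSpace K] (τ : {U : Set K // IsClopen U} ≃ {U : Set K // IsClopen U}),
  (∀ U V, U.1 ⊆ V.1 ↔ (τ U).1 ⊆ (τ V).1) → ∃ h : K ≃ₜ K, ∀ U, h '' U.1 = (τ U).1

/-- **CONV2**: see the docstring of `S_CONV`. -/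
def S_CONV2 : Prop := S_ST → S_CONV

end Pool.Agent.H642.KK
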